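import Pool.Agent.U180.DP.Stm2
import Pool.Agent.U858.DP.BCN

/-!
# Project DP, package KS: a form of the Kochen-Stone lemma

Co-authors: helper180 (project), helper858 (package BCN, used and adapted here), helper56.
-/

set_option autoImplicit false

open MeasureTheory ProbabilityTheory Filter Topology

namespace Pool.Agent.U56.DP

open Pool.Agent.U180.DP Pool.Agent.U858.DP

section fin

variable {Ω : Type} [MeasurableSpace Ω] (P : Measure Ω) [IsProbabilityMeasure P] (E : ℕ → Set Ω)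

lemma ks_cov (f : ℕ → ℕ) (ε : ℝ) (hε : 0 ≤ ε) (n₀ : ℕ)
    (h : ∀ n m : ℕ, n₀ ≤ n → n < m → m ≠ f n →
      P.real (E n ∩ E m) ≤ (1 + ε) * (P.real (E n) * P.real (E m))) (n k : ℕ) (hn : n₀ ≤ n)
    (hk : n₀ ≤ k) :
    P.real (E n ∩ E k) - P.real (E n) * P.real (E k) ≤
      (if n = k then P.real (E n) else 0) + (if f n = k then P.real (E n) else 0) +
        (if f k = n then P.real (E k) else 0) + ε * (P.real (E n) * P.real (E k)) := by
  have pn : 0 ≤ P.real (E n) := measureReal_nonneg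
  have pk : 0 ≤ P.real (E k) := measureReal_nonneg
  have pnk : 0 ≤ P.real (E n) * P.real (E k) := mul_nonneg pn pk
  have pe : 0 ≤ ε * (P.real (E n) * P.real (E k)) := mul_nonneg hε pnk
  have q1 : 0 ≤ (if n = k then P.real (E n) else 0) := by split_ifs <;> simp [pn]
  have q2 : 0 ≤ (if f n = k then P.real (E n) else 0) := by split_ifs <;> simp [pn]
  have q3 : 0 ≤ (if f k = n then P.real (E k) else 0) := by split_ifs <;> simp [pk]
  have r1 : P.real (E n ∩ E k) ≤ P.real (E n) :=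
    measureReal_mono Set.inter_subset_left (measure_ne_top _ _)
  have r2 : P.real (E n ∩ E k) ≤ P.real (E k) :=
    measureReal_mono Set.inter_subset_right (measure_ne_top _ _)
  rcases lt_trichotomy n k with h1 | h1 | h1
  · by_cases h2 : k = f n
    · rw [if_pos h2.symm] at q2 ⊢
      linarith
    · have := h n k hn h1 h2
      linarith
  · rw [if_pos h1] at q1 ⊢
    linarith
  · by_cases h2 : n = f k
    · rw [if_pos h2.symm] at q3 ⊢
      linarith
    · have := h k n hk h1 h2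
      rw [Set.inter_comm, mul_comm (P.real (E k))] at this
      linarith

theorem ks_fin (hE : ∀ n, MeasurableSet (E n)) (f : ℕ → ℕ) (ε : ℝ) (hε : 0 ≤ ε) (n₀ : ℕ)
    (h : ∀ n m : ℕ, n₀ ≤ n → n < m → m ≠ f n →
      P.real (E n ∩ E m) ≤ (1 + ε) * (P.real (E n) * P.real (E m))) (s : Finset ℕ)
    (hs : ∀ n ∈ s, n₀ ≤ n) :
    (∑ n ∈ s, P.real (E n)) ^ 2 * P.real {ω | ∀ n ∈ s, ω ∉ E n} ≤
      3 * ∑ n ∈ s, P.real (E n) + ε * (∑ n ∈ s, P.real (E n)) ^ 2 := by
  have hZ : MeasurableSet {ω | ∀ n ∈ s, ω ∉ E n} := by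
    have h1 : {ω | ∀ n ∈ s, ω ∉ E n} = ⋂ n ∈ s, (E n)ᶜ := by
      ext ω
      simp
    rw [h1]
    exact Finset.measurableSet_biInter s fun n _ => (hE n).compl
  have hsq : ∀ ω, (∑ n ∈ s, (ind E n ω - P.real (E n))) ^ 2 =
      ∑ n ∈ s, ∑ k ∈ s, (ind E n ω - P.real (E n)) * (ind E k ω - P.real (E k)) := by
    intro ω
    rw [sq, Finset.sum_mul_sum]
  have hint : Integrable (fun ω => (∑ n ∈ s, (ind E n ω - P.real (E n))) ^ 2) P := by
    simp only [hsq]
    exact integrable_finsetSum _ fun n _ => integrable_finsetSum _ fun k _ => (cov P E hE n k).1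
  have hle : ∫ ω, (∑ n ∈ s, (ind E n ω - P.real (E n))) ^ 2 ∂P ≤
      3 * ∑ n ∈ s, P.real (E n) + ε * (∑ n ∈ s, P.real (E n)) ^ 2 := by
    simp only [hsq]
    rw [integral_finsetSum _ fun n _ => integrable_finsetSum _ fun k _ => (cov P E hE n k).1]
    have h1 : ∀ n ∈ s, ∫ ω, ∑ k ∈ s, (ind E n ω - P.real (E n)) * (ind E k ω - P.real (E k)) ∂P ≤
        ∑ k ∈ s, ((if n = k then P.real (E n) else 0) + (if f n = k then P.real (E n) else 0) +
          (if f k = n then P.real (E k) else 0) + ε * (P.real (E n) * P.real (E k))) := by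
      intro n hn
      rw [integral_finsetSum _ fun k _ => (cov P E hE n k).1]
      refine Finset.sum_le_sum fun k hk => ?_
      rw [(cov P E hE n k).2]
      exact ks_cov P E f ε hε n₀ h n k (hs n hn) (hs k hk)
    refine (Finset.sum_le_sum h1).trans ?_
    simp only [Finset.sum_add_distrib]
    have h2 : ∑ n ∈ s, ∑ k ∈ s, (if n = k then P.real (E n) else 0) = ∑ n ∈ s, P.real (E n) := by
      refine Finset.sum_congr rfl fun n hn => ?_
      rw [Finset.sum_ite_eq, if_pos hn]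
    have h3 : ∑ n ∈ s, ∑ k ∈ s, (if f n = k then P.real (E n) else 0) ≤
        ∑ n ∈ s, P.real (E n) := by
      refine Finset.sum_le_sum fun n hn => ?_
      rw [Finset.sum_ite_eq]
      split_ifs
      · exact le_rfl
      · exact measureReal_nonneg
    have h4 : ∑ n ∈ s, ∑ k ∈ s, (if f k = n then P.real (E k) else 0) ≤
        ∑ n ∈ s, P.real (E n) := by
      rw [Finset.sum_comm]
      exact h3
    have h5 : ∑ n ∈ s, ∑ k ∈ s, ε * (P.real (E n) * P.real (E k)) =
        ε * (∑ n ∈ s, P.real (E n)) ^ 2 := by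
      rw [sq, Finset.sum_mul_sum, Finset.mul_sum]
      refine Finset.sum_congr rfl fun n _ => ?_
      rw [Finset.mul_sum]
    linarith
  have hpt : ∀ ω, (∑ n ∈ s, P.real (E n)) ^ 2 *
      ({ω | ∀ n ∈ s, ω ∉ E n} : Set Ω).indicator (fun _ => (1 : ℝ)) ω ≤
      (∑ n ∈ s, (ind E n ω - P.real (E n))) ^ 2 := by
    intro ω
    by_cases h : ω ∈ ({ω | ∀ n ∈ s, ω ∉ E n} : Set Ω)
    · rw [Set.indicator_of_mem h, mul_one]
      have h1 : ∑ n ∈ s, (ind E n ω - P.real (E n)) = -∑ n ∈ s, P.real (E n) := by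
        rw [← Finset.sum_neg_distrib]
        refine Finset.sum_congr rfl fun n hn => ?_
        have : ind E n ω = 0 := Set.indicator_of_notMem (h n hn) _
        rw [this, zero_sub]
      rw [h1, neg_sq]
    · rw [Set.indicator_of_notMem h, mul_zero]
      positivity
  calc (∑ n ∈ s, P.real (E n)) ^ 2 * P.real {ω | ∀ n ∈ s, ω ∉ E n}
      = ∫ ω, (∑ n ∈ s, P.real (E n)) ^ 2 *
          ({ω | ∀ n ∈ s, ω ∉ E n} : Set Ω).indicator (fun _ => (1 : ℝ)) ω ∂P := by
        rw [integral_const_mul, int_one P _ hZ]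
    _ ≤ ∫ ω, (∑ n ∈ s, (ind E n ω - P.real (E n))) ^ 2 ∂P :=
        integral_mono (((integrable_const (1 : ℝ)).indicator hZ).const_mul _) hint hpt
    _ ≤ _ := hle

end fin

theorem t_KS : S_KS := by
  intro Ω _ P hP E f hE hcor hdiv
  have htend : Tendsto (fun b => ∑ n ∈ Finset.range b, P.real (E n)) atTop atTop :=
    (not_summable_iff_tendsto_nat_atTop_of_nonneg fun n => measureReal_nonneg).1 hdiv
  have hzero : ∀ a : ℕ, P {ω | ∀ n, a ≤ n → ω ∉ E n} = 0 := by
    intro a₀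
    by_contra hne
    set c : ℝ := P.real {ω | ∀ n, a₀ ≤ n → ω ∉ E n} with hc
    have hc0 : 0 < c := by
      rw [hc, measureReal_def]
      exact ENNReal.toReal_pos hne (measure_ne_top _ _)
    obtain ⟨n₀, hn₀⟩ := hcor (c / 4) (by positivity)
    set a : ℕ := max a₀ n₀ with ha
    set m0 : ℝ := ∑ n ∈ Finset.range a, P.real (E n) with hm0
    obtain ⟨b, hb, hab⟩ := ((htend.eventually_gt_atTop (m0 + 4 / c)).and
      (eventually_ge_atTop a)).exists
    have hsplit : ∑ n ∈ Finset.range b, P.real (E n) = m0 + ∑ n ∈ Finset.Ico a b, P.real (E n) := by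
      rw [hm0, Finset.sum_range_add_sum_Ico _ hab]
    set m : ℝ := ∑ n ∈ Finset.Ico a b, P.real (E n) with hm
    have hm1 : 4 / c < m := by linarith
    have hmpos : 0 < m := lt_trans (by positivity) hm1
    have h1 := ks_fin P E hE f (c / 4) (by positivity) n₀ hn₀ (Finset.Ico a b) fun n hn =>
      (le_max_right a₀ n₀).trans (Finset.mem_Ico.1 hn).1
    rw [← hm] at h1
    have h2 : c ≤ P.real {ω | ∀ n ∈ Finset.Ico a b, ω ∉ E n} := by
      refine measureReal_mono (fun ω hω n hn => ?_) (measure_ne_top _ _)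
      exact hω n ((le_max_left a₀ n₀).trans (Finset.mem_Ico.1 hn).1)
    have h3 : m ^ 2 * c ≤ 3 * m + c / 4 * m ^ 2 :=
      (mul_le_mul_of_nonneg_left h2 (sq_nonneg m)).trans h1
    have h5 : 4 < m * c := by
      rwa [div_lt_iff₀ hc0] at hm1
    have h6 : m * 4 < m * (m * c) := mul_lt_mul_of_pos_left h5 hmpos
    have h7 : m ^ 2 * c = m * (m * c) := by ring
    have h8 : c / 4 * m ^ 2 = m * (m * c) / 4 := by ring
    linarith
  have hae : ∀ᵐ ω ∂P, ∀ a : ℕ, ω ∉ {ω | ∀ n, a ≤ n → ω ∉ E n} := by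
    rw [ae_all_iff]
    intro a
    exact measure_eq_zero_iff_ae_notMem.1 (hzero a)
  filter_upwards [hae] with ω hω
  rw [frequently_atTop]
  intro a
  have h := hω a
  simp only [not_forall, not_not] at h
  obtain ⟨n, hn, hnE⟩ := h
  exact ⟨n, hn, hnE⟩

end Pool.Agent.U56.DP
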