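import Pool.Agent.U180.DP.Stm
import Pool.Agent.U600.NG.TU
import Pool.Agent.U129.NG.SMGF
import Pool.Agent.U72.NG.MGF

/-!
# Project DP, package UNI: the number of displaced primes in all longer intervals

Co-authors: helper180 (project), helper56.
-/

set_option autoImplicit false

open MeasureTheory ProbabilityTheory Filter Topology

namespace Pool.Agent.U56.DP

open Pool.Agent.U180.DP

variable {Ω : Type}

lemma amp_nonneg (A : ℝ) (p : ℕ) : 0 ≤ amp A p := by
  unfold amp
  have : 0 ≤ Real.log p := Real.log_natCast_nonneg p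
  positivity

/-- the good event -/
def good (U : ℕ → Ω → ℝ) (ω : Ω) : Prop := ∀ p : ℕ, 0 ≤ U p ω ∧ U p ω ≤ 1

lemma le_dis (A : ℝ) (U : ℕ → Ω → ℝ) (ω : Ω) (h : good U ω) (p : ℕ) : (p : ℝ) ≤ dis A U p ω := by
  unfold dis
  have := mul_nonneg (amp_nonneg A p) (h p).1
  linarith

/-- the displaced primes in a window -/
def win (A : ℝ) (U : ℕ → Ω → ℝ) (x y : ℝ) (ω : Ω) : Set ℕ :=
  {p : ℕ | p.Prime ∧ x < dis A U p ω ∧ dis A U p ω ≤ x + y}

lemma win_sub (A : ℝ) (U : ℕ → Ω → ℝ) (x y : ℝ) (ω : Ω) (h : good U ω) :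
    win A U x y ω ⊆ (prm (x + y) : Set ℕ) := by
  intro p hp
  obtain ⟨h1, h2, h3⟩ := hp
  have h4 := le_dis A U ω h p
  have h5 : (p : ℝ) ≤ x + y := h4.trans h3
  have h6 : p ≤ ⌊x + y⌋₊ := Nat.le_floor h5
  simp only [prm, Finset.coe_filter, Finset.mem_range, Set.mem_ofPred_eq]
  exact ⟨by omega, h1⟩

lemma win_fin (A : ℝ) (U : ℕ → Ω → ℝ) (x y : ℝ) (ω : Ω) (h : good U ω) :
    (win A U x y ω).Finite := (Finset.finite_toSet _).subset (win_sub A U x y ω h)

lemma cnt_mono (A : ℝ) (U : ℕ → Ω → ℝ) (x y x' y' : ℝ) (ω : Ω) (h : good U ω) (h1 : x' ≤ x)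
    (h2 : x + y ≤ x' + y') : cnt A U x y ω ≤ cnt A U x' y' ω := by
  refine Set.ncard_le_ncard ?_ (win_fin A U x' y' ω h)
  rintro p ⟨hp, ha, hb⟩
  exact ⟨hp, by linarith, by linarith⟩

lemma cnt_add (A : ℝ) (U : ℕ → Ω → ℝ) (x y z : ℝ) (ω : Ω) (h : good U ω) (hy : 0 ≤ y)
    (hz : 0 ≤ z) : cnt A U x (y + z) ω = cnt A U x y ω + cnt A U (x + y) z ω := by
  change (win A U x (y + z) ω).ncard = (win A U x y ω).ncard + (win A U (x + y) z ω).ncard
  rw [← Set.ncard_union_eq ?_ (win_fin A U x y ω h) (win_fin A U (x + y) z ω h)]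
  · congr 1
    ext p
    simp only [win, Set.mem_ofPred_eq, Set.mem_union]
    constructor
    · rintro ⟨hp, ha, hb⟩
      by_cases hc : dis A U p ω ≤ x + y
      · exact Or.inl ⟨hp, ha, hc⟩
      · exact Or.inr ⟨hp, not_le.mp hc, by linarith⟩
    · rintro (⟨hp, ha, hb⟩ | ⟨hp, ha, hb⟩)
      · exact ⟨hp, ha, by linarith⟩
      · exact ⟨hp, by linarith, by linarith⟩
  · rw [Set.disjoint_left]
    rintro p ⟨hp, ha, hb⟩ ⟨hp', ha', hb'⟩
    linarith

/-- the indicator variables -/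
noncomputable def gi (A x y : ℝ) (p : ℕ) (u : ℝ) : ℝ :=
  (Set.Ioc x (x + y)).indicator (fun _ => (1 : ℝ)) (p + amp A p * u)

lemma gi_meas (A x y : ℝ) (p : ℕ) : Measurable (gi A x y p) := by
  unfold gi
  exact (measurable_const.indicator measurableSet_Ioc).comp (by fun_prop)

/-- the indicator variables -/
noncomputable def X (A : ℝ) (U : ℕ → Ω → ℝ) (x y : ℝ) (p : ℕ) (ω : Ω) : ℝ := gi A x y p (U p ω)

lemma X_01 (A : ℝ) (U : ℕ → Ω → ℝ) (x y : ℝ) (p : ℕ) (ω : Ω) :
    X A U x y p ω = 0 ∨ X A U x y p ω = 1 := by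
  unfold X gi
  by_cases h : (p : ℝ) + amp A p * U p ω ∈ Set.Ioc x (x + y)
  · right; rw [Set.indicator_of_mem h]
  · left; rw [Set.indicator_of_notMem h]

lemma cnt_eq (A : ℝ) (U : ℕ → Ω → ℝ) (x y : ℝ) (ω : Ω) (h : good U ω) :
    (cnt A U x y ω : ℝ) = ∑ p ∈ prm (x + y), X A U x y p ω := by
  classical
  have h1 : win A U x y ω = ((prm (x + y)).filter fun p =>
      x < dis A U p ω ∧ dis A U p ω ≤ x + y : Finset ℕ) := by
    ext p
    simp only [Finset.coe_filter, Set.mem_ofPred_eq]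
    constructor
    · intro hp
      exact ⟨win_sub A U x y ω h hp, hp.2⟩
    · rintro ⟨hp, hq⟩
      have : p.Prime := by
        simp only [prm, Finset.mem_filter] at hp
        exact hp.2
      exact ⟨this, hq⟩
  have h2 : cnt A U x y ω = ((prm (x + y)).filter fun p =>
      x < dis A U p ω ∧ dis A U p ω ≤ x + y).card := by
    rw [← Set.ncard_coe_finset, ← h1]
    rfl
  rw [h2, Finset.card_filter]
  push_cast
  refine Finset.sum_congr rfl fun p _ => ?_
  unfold X gi dis
  by_cases hc : x < (p : ℝ) + amp A p * U p ω ∧ (p : ℝ) + amp A p * U p ω ≤ x + y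
  · rw [if_pos hc, Set.indicator_of_mem (show _ ∈ Set.Ioc x (x + y) from hc)]
  · rw [if_neg hc, Set.indicator_of_notMem (show _ ∉ Set.Ioc x (x + y) from hc)]

section prob

variable [MeasurableSpace Ω] (P : Measure Ω)

lemma X_meas (A : ℝ) (U : ℕ → Ω → ℝ) (hU : IsUnif P U) (x y : ℝ) (p : ℕ) :
    Measurable (X A U x y p) := (gi_meas A x y p).comp (hU.meas p)

lemma X_ind (A : ℝ) (U : ℕ → Ω → ℝ) (hU : IsUnif P U) (x y : ℝ) :
    iIndepFun (X A U x y) P := hU.indep.comp (gi A x y) (gi_meas A x y)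

lemma X_int (h2 : S_LAW) (A : ℝ) (hA : 0 < A) (U : ℕ → Ω → ℝ) (hU : IsUnif P U) (x y : ℝ)
    (hy : 0 ≤ y) (p : ℕ) (hp : p.Prime) : ∫ ω, X A U x y p ω ∂P = prb A x y p := by
  have h := (h2 Ω P A U hU hA).2.1 x y p hp hy
  rw [← h]
  have h3 : (fun ω => X A U x y p ω) =
      ({ω | x < dis A U p ω ∧ dis A U p ω ≤ x + y} : Set Ω).indicator (fun _ => (1 : ℝ)) := by
    funext ω
    unfold X gi
    by_cases hc : x < (p : ℝ) + amp A p * U p ω ∧ (p : ℝ) + amp A p * U p ω ≤ x + y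
    · rw [Set.indicator_of_mem (show _ ∈ Set.Ioc x (x + y) from hc),
        Set.indicator_of_mem (show ω ∈ {ω | x < dis A U p ω ∧ dis A U p ω ≤ x + y} from hc)]
    · rw [Set.indicator_of_notMem (show _ ∉ Set.Ioc x (x + y) from hc),
        Set.indicator_of_notMem (show ω ∉ {ω | x < dis A U p ω ∧ dis A U p ω ≤ x + y} from hc)]
  have hm : MeasurableSet {ω | x < dis A U p ω ∧ dis A U p ω ≤ x + y} := by
    have hd : Measurable (dis A U p) := by
      unfold dis
      exact measurable_const.add ((hU.meas p).const_mul _)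
    exact (measurableSet_lt measurable_const hd).inter (measurableSet_le hd measurable_const)
  rw [h3, integral_indicator hm]
  simp

lemma prb_01 (h2 : S_LAW) (A : ℝ) (hA : 0 < A) (U : ℕ → Ω → ℝ) (hU : IsUnif P U) (x y : ℝ)
    (hy : 0 ≤ y) (p : ℕ) (hp : p.Prime) : 0 ≤ prb A x y p ∧ prb A x y p ≤ 1 := by
  have := hU.prob
  rw [← (h2 Ω P A U hU hA).2.1 x y p hp hy]
  exact ⟨measureReal_nonneg, measureReal_le_one⟩

/-- the deviation -/
noncomputable def dev (A : ℝ) (U : ℕ → Ω → ℝ) (x y : ℝ) (ω : Ω) : ℝ :=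
  ∑ p ∈ prm (x + y), (X A U x y p ω - prb A x y p)

lemma tail (h2 : S_LAW) (A : ℝ) (hA : 0 < A) (U : ℕ → Ω → ℝ) (hU : IsUnif P U) (x y e : ℝ)
    (he : 0 < e) (he2 : e ≤ 1 / 2) (hx : 1 < x) (hy : 0 < y)
    (hm : |∑ p ∈ prm (x + y), prb A x y p - y / Real.log x| ≤ e * (y / Real.log x)) :
    P.real {ω | e * (y / Real.log x) ≤ |dev A U x y ω|} ≤
      2 * Real.exp (-(e ^ 2 / 8 * (y / Real.log x))) := by
  have hprob := hU.prob
  have hlog : 0 < Real.log x := Real.log_pos hx
  set M := y / Real.log x with hM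
  have hM0 : 0 < M := by positivity
  have hprime : ∀ p ∈ prm (x + y), p.Prime := fun p hp => by
    simp only [prm, Finset.mem_filter] at hp
    exact hp.2
  have hint : ∀ p ∈ prm (x + y), ∫ ω, X A U x y p ω ∂P = prb A x y p := fun p hp =>
    X_int P h2 A hA U hU x y hy.le p (hprime p hp)
  have hTU := Pool.Agent.U600.NG.t_TU (Pool.Agent.U129.NG.t_SMGF Pool.Agent.U72.NG.t_MGF) Ω ℕ P
    hprob (X A U x y) (prm (x + y)) (2 * M) (e * M) (X_meas P A U hU x y) (X_ind P A U hU x y)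
    (X_01 A U x y) (by positivity) ?_ (by positivity) (by nlinarith)
  · have hs : ∀ ω, ∑ p ∈ prm (x + y), (X A U x y p ω - ∫ ω, X A U x y p ω ∂P) =
        dev A U x y ω := fun ω => by
      unfold dev
      exact Finset.sum_congr rfl fun p hp => by rw [hint p hp]
    simp only [hs] at hTU
    refine hTU.trans ?_
    have h5 : e ^ 2 / 8 * M ≤ (1 - 2 * (e * M) / (2 * M)) * (e * M) ^ 2 / (2 * (2 * M)) := by
      have h6 : (1 - 2 * (e * M) / (2 * M)) * (e * M) ^ 2 / (2 * (2 * M)) =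
          (1 - e) * (e ^ 2 * M / 4) := by
        field_simp
        ring
      rw [h6]
      nlinarith [mul_pos (pow_pos he 2) hM0]
    have h7 : Real.exp (-((1 - 2 * (e * M) / (2 * M)) * (e * M) ^ 2 / (2 * (2 * M)))) ≤
        Real.exp (-(e ^ 2 / 8 * M)) := Real.exp_le_exp.mpr (by linarith)
    linarith
  · have h8 : ∑ i ∈ prm (x + y), (∫ ω, X A U x y i ω ∂P) * (1 - ∫ ω, X A U x y i ω ∂P) ≤
        ∑ i ∈ prm (x + y), prb A x y i := by
      refine Finset.sum_le_sum fun p hp => ?_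
      rw [hint p hp]
      have := prb_01 P h2 A hA U hU x y hy.le p (hprime p hp)
      nlinarith [this.1, this.2]
    have h9 := (abs_le.mp hm).2
    nlinarith

/-- the bad event -/
def bad (A : ℝ) (U : ℕ → Ω → ℝ) (e : ℝ) (n m : ℕ) : Set Ω :=
  {ω | e * ((m : ℝ) / Real.log n) ≤ |dev A U n m ω|}

lemma integers (h1 : S_MEAN) (h2 : S_LAW) (A : ℝ) (hA : 0 < A) (U : ℕ → Ω → ℝ) (hU : IsUnif P U)
    (e : ℝ) (he : 0 < e) (he2 : e ≤ 1 / 2) :
    ∀ᵐ ω ∂P, ∀ᶠ n : ℕ in atTop, ∀ m : ℕ, 32 / e ^ 2 * Real.log n ^ 2 ≤ m → m ≤ n →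
      |(cnt A U n m ω : ℝ) - m / Real.log n| ≤ 2 * e * (m / Real.log n) := by
  have hprob := hU.prob
  obtain ⟨X₀, hX⟩ := h1 A e hA he
  set n₀ : ℕ := max 3 ⌈X₀⌉₊ with hn₀
  have hn3 : 3 ≤ n₀ := le_max_left _ _
  have hnX : ∀ n : ℕ, n₀ ≤ n → X₀ ≤ n := fun n hn =>
    (Nat.le_ceil X₀).trans (by exact_mod_cast (le_max_right _ _).trans hn)
  let I : ℕ → Finset ℕ := fun n => (Finset.range (n + 1)).filter fun m : ℕ =>
    32 / e ^ 2 * Real.log n ^ 2 ≤ m
  let E : ℕ → Set Ω := fun n => if n₀ ≤ n then ⋃ m ∈ I n, bad A U e n m else ∅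
  have hE : ∀ n, P.real (E n) ≤ 4 * (1 / (n : ℝ) ^ 2) := by
    intro n
    by_cases hn : n₀ ≤ n
    · simp only [E, if_pos hn]
      have hn3' : (3 : ℝ) ≤ n := by exact_mod_cast hn3.trans hn
      have hlog : 0 < Real.log n := Real.log_pos (by linarith)
      have hb : ∀ m ∈ I n, P.real (bad A U e n m) ≤ 2 * (1 / (n : ℝ) ^ 4) := by
        intro m hm
        simp only [I, Finset.mem_filter, Finset.mem_range] at hm
        obtain ⟨hm1, hm2⟩ := hm
        have hmn : (m : ℝ) ≤ n := by exact_mod_cast Nat.lt_succ_iff.mp hm1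
        have hm0 : (0 : ℝ) < m := lt_of_lt_of_le (by positivity) hm2
        have ht := tail P h2 A hA U hU n m e he he2 (by linarith) hm0
          (hX n m (hnX n hn) hm0 hmn)
        refine ht.trans ?_
        have h3 : 4 * Real.log n ≤ e ^ 2 / 8 * ((m : ℝ) / Real.log n) := by
          rw [← mul_div_assoc, le_div_iff₀ hlog]
          have : e ^ 2 / 8 * (32 / e ^ 2 * Real.log n ^ 2) ≤ e ^ 2 / 8 * m := by gcongr
          have h4 : e ^ 2 / 8 * (32 / e ^ 2 * Real.log n ^ 2) = 4 * Real.log n * Real.log n := by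
            field_simp
            ring
          linarith
        have h5 : Real.exp (-(e ^ 2 / 8 * ((m : ℝ) / Real.log n))) ≤ 1 / (n : ℝ) ^ 4 := by
          have h6 : Real.exp (-(4 * Real.log n)) = 1 / (n : ℝ) ^ 4 := by
            rw [Real.exp_neg, show 4 * Real.log n = Real.log ((n : ℝ) ^ 4) by
              rw [Real.log_pow]; norm_num, Real.exp_log (by positivity), one_div]
          rw [← h6]
          exact Real.exp_le_exp.mpr (by linarith)
        linarith
      calc P.real (⋃ m ∈ I n, bad A U e n m) ≤ ∑ m ∈ I n, P.real (bad A U e n m) :=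
            measureReal_biUnion_finset_le _ _
        _ ≤ ∑ m ∈ I n, 2 * (1 / (n : ℝ) ^ 4) := Finset.sum_le_sum hb
        _ ≤ (n + 1) * (2 * (1 / (n : ℝ) ^ 4)) := by
            rw [Finset.sum_const, nsmul_eq_mul]
            have : ((I n).card : ℝ) ≤ n + 1 := by
              have := Finset.card_filter_le (Finset.range (n + 1)) fun m : ℕ =>
                32 / e ^ 2 * Real.log n ^ 2 ≤ m
              rw [Finset.card_range] at this
              exact_mod_cast this
            gcongr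
        _ ≤ 4 * (1 / (n : ℝ) ^ 2) := by
            rw [show (n + 1 : ℝ) * (2 * (1 / (n : ℝ) ^ 4)) = 2 * (n + 1) / (n : ℝ) ^ 4 by ring,
              show 4 * (1 / (n : ℝ) ^ 2) = 4 * (n : ℝ) ^ 2 / (n : ℝ) ^ 4 by field_simp]
            apply div_le_div_of_nonneg_right _ (by positivity)
            nlinarith
    · simp only [E, if_neg hn, measureReal_empty]
      positivity
  have hsum : Summable fun n : ℕ => 4 * (1 / (n : ℝ) ^ 2) :=
    (Real.summable_one_div_nat_pow.mpr (by norm_num)).mul_left 4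
  have hne : ∑' n, P (E n) ≠ ⊤ := by
    have h3 : ∀ n, P (E n) ≤ ENNReal.ofReal (4 * (1 / (n : ℝ) ^ 2)) := fun n => by
      rw [← ofReal_measureReal]
      exact ENNReal.ofReal_le_ofReal (hE n)
    exact ne_top_of_le_ne_top hsum.tsum_ofReal_ne_top (ENNReal.tsum_le_tsum h3)
  have hBC := ae_eventually_notMem hne
  have hgood := (h2 Ω P A U hU hA).2.2.1
  filter_upwards [hBC, hgood] with ω hω hg
  filter_upwards [hω, eventually_ge_atTop n₀] with n hn hn0 m hm1 hm2
  have hn3' : (3 : ℝ) ≤ n := by exact_mod_cast hn3.trans hn0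
  have hlog : 0 < Real.log n := Real.log_pos (by linarith)
  have hm0 : (0 : ℝ) < m := lt_of_lt_of_le (by positivity) hm1
  have hmn : (m : ℝ) ≤ n := by exact_mod_cast hm2
  have h3 := hX n m (hnX n hn0) hm0 hmn
  have h4 : ω ∉ bad A U e n m := by
    intro hb
    apply hn
    simp only [E, if_pos hn0]
    simp only [Set.mem_iUnion]
    refine ⟨m, ?_, hb⟩
    simp only [I, Finset.mem_filter, Finset.mem_range]
    exact ⟨by omega, hm1⟩
  have h5 : |dev A U n m ω| < e * ((m : ℝ) / Real.log n) := not_le.mp h4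
  have h6 := cnt_eq A U n m ω hg
  have h7 : dev A U n m ω = (cnt A U n m ω : ℝ) - ∑ p ∈ prm ((n : ℝ) + m), prb A n m p := by
    unfold dev
    rw [Finset.sum_sub_distrib, ← h6]
  rw [h7] at h5
  have h8 := abs_lt.mp h5
  have h9 := abs_le.mp h3
  rw [abs_le]
  constructor <;> linarith [h8.1, h8.2, h9.1, h9.2]

end prob

lemma num1 (e y : ℝ) (he : 0 < e) (he2 : e ≤ 1 / 20) (hy : 0 < y) (hye : 2 ≤ e * y) :
    (1 + 2 * e) * (y + 2) ≤ (1 + 5 * e) * y * (1 - e) := by
  have h10 : (1 + 2 * e) * (y + 2) ≤ (1 + 2 * e) * (y + e * y) := by gcongr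
  have h11 : (1 + 5 * e) * y * (1 - e) - (1 + 2 * e) * (y + e * y) = y * e * (1 - 7 * e) := by
    ring
  have h12 : 0 ≤ y * e * (1 - 7 * e) := mul_nonneg (by positivity) (by linarith)
  linarith

lemma num2 (e y : ℝ) (he : 0 < e) (he2 : e ≤ 1 / 20) (hy : 0 < y) (hye : 2 ≤ e * y) :
    (1 - 5 * e) * y * (1 + e) ≤ (1 - 2 * e) * (y - 2) := by
  have h10 : (1 - 2 * e) * (y - e * y) ≤ (1 - 2 * e) * (y - 2) := by
    apply mul_le_mul_of_nonneg_left _ (by linarith)
    linarith
  have h11 : (1 - 2 * e) * (y - e * y) - (1 - 5 * e) * y * (1 + e) = y * e * (1 + 7 * e) := by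
    ring
  have h12 : 0 ≤ y * e * (1 + 7 * e) := by positivity
  linarith

/-- from integers to real numbers, short windows -/
lemma reals (A : ℝ) (U : ℕ → Ω → ℝ) (ω : Ω) (hg : good U ω) (e : ℝ) (he : 0 < e)
    (he2 : e ≤ 1 / 20)
    (h : ∀ᶠ n : ℕ in atTop, ∀ m : ℕ, 32 / e ^ 2 * Real.log n ^ 2 ≤ m → m ≤ n →
      |(cnt A U n m ω : ℝ) - m / Real.log n| ≤ 2 * e * (m / Real.log n)) :
    ∀ᶠ x : ℝ in atTop, ∀ y : ℝ, 64 / e ^ 2 * Real.log x ^ 2 ≤ y → y ≤ x / 2 →
      |(cnt A U x y ω : ℝ) - y / Real.log x| ≤ 5 * e * (y / Real.log x) := by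
  obtain ⟨n₀, hn₀⟩ := eventually_atTop.mp h
  have hL : Tendsto Real.log atTop atTop := Real.tendsto_log_atTop
  filter_upwards [eventually_ge_atTop (n₀ + 10 : ℝ), hL.eventually_ge_atTop (1 / e)]
    with x hx1 hx2 y hy1 hy2
  have hx10 : (10 : ℝ) ≤ x := by
    have : (0 : ℝ) ≤ n₀ := Nat.cast_nonneg _
    linarith
  have hl : 20 ≤ Real.log x := by
    have : 20 ≤ 1 / e := by rw [le_div_iff₀ he]; linarith
    linarith
  have hel : 1 ≤ e * Real.log x := by
    have := mul_le_mul_of_nonneg_left hx2 he.le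
    rwa [mul_one_div_cancel he.ne'] at this
  have hy0 : 64 / e ^ 2 ≤ y := by
    have : 64 / e ^ 2 * 1 ≤ 64 / e ^ 2 * Real.log x ^ 2 := by
      gcongr
      nlinarith
    linarith
  have hye : 64 ≤ e ^ 2 * y := by
    rwa [div_le_iff₀ (by positivity), mul_comm] at hy0
  have hypos : 0 < y := by
    have : 0 < 64 / e ^ 2 := by positivity
    linarith
  have hee : e ^ 2 ≤ 1 * e := by
    rw [pow_two]
    exact mul_le_mul_of_nonneg_right (by linarith) he.le
  have hye2 : 2 ≤ e * y := by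
    have : e ^ 2 * y ≤ 1 * e * y := mul_le_mul_of_nonneg_right hee hypos.le
    linarith
  have hy2 : 10 ≤ y := by
    have : e * y ≤ 1 * y := mul_le_mul_of_nonneg_right (by linarith) hypos.le
    have h3 : e ^ 2 * y ≤ 1 * e * y := mul_le_mul_of_nonneg_right hee hypos.le
    linarith
  have hlog2 : Real.log 2 ≤ 1 := by linarith [Real.log_two_lt_d9]
  have hlx : 0 < Real.log x := by linarith
  have hxy : 0 ≤ x + y := by linarith
  have hup : (cnt A U x y ω : ℝ) ≤ (1 + 5 * e) * (y / Real.log x) := by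
    set n := ⌊x⌋₊ with hn
    have hn1 : (n : ℝ) ≤ x := Nat.floor_le (by linarith)
    have hn2 : x < n + 1 := Nat.lt_floor_add_one x
    have hc1 : x + y ≤ (⌈x + y⌉₊ : ℝ) := Nat.le_ceil _
    have hc2 : (⌈x + y⌉₊ : ℝ) < x + y + 1 := Nat.ceil_lt_add_one hxy
    have hnc : n ≤ ⌈x + y⌉₊ := by
      have : (n : ℝ) ≤ (⌈x + y⌉₊ : ℝ) := by linarith
      exact_mod_cast this
    obtain ⟨m, hm⟩ := Nat.exists_eq_add_of_le hnc
    have hmr : (⌈x + y⌉₊ : ℝ) = n + m := by rw [hm]; push_cast; ring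
    have hnn : n₀ ≤ n := by
      have : (n₀ : ℝ) < n + 1 := by linarith
      have : n₀ < n + 1 := by exact_mod_cast this
      omega
    have hn9 : (9 : ℝ) ≤ n := by linarith
    have hln0 : 0 < Real.log n := Real.log_pos (by linarith)
    have hln1 : Real.log n ≤ Real.log x := Real.log_le_log (by linarith) hn1
    have hln2 : (1 - e) * Real.log x ≤ Real.log n := by
      have h3 : Real.log (x / 2) ≤ Real.log n := Real.log_le_log (by linarith) (by linarith)
      rw [Real.log_div (by linarith) (by norm_num)] at h3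
      linarith
    have hm1 : 32 / e ^ 2 * Real.log n ^ 2 ≤ m := by
      have h4 : 32 / e ^ 2 * Real.log n ^ 2 ≤ 64 / e ^ 2 * Real.log x ^ 2 := by
        gcongr
        norm_num
      linarith
    have hm2 : m ≤ n := by
      have : (m : ℝ) ≤ n := by linarith
      exact_mod_cast this
    have h5 := (abs_le.mp (hn₀ n hnn m hm1 hm2)).2
    have h6 := cnt_mono A U x y n m ω hg hn1 (by linarith)
    have h6' : (cnt A U x y ω : ℝ) ≤ cnt A U n m ω := by exact_mod_cast h6
    have h7 : (m : ℝ) / Real.log n ≤ (y + 2) / ((1 - e) * Real.log x) := by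
      have : 0 < (1 - e) * Real.log x := mul_pos (by linarith) hlx
      gcongr
      linarith
    have h8 : (1 + 2 * e) * ((y + 2) / ((1 - e) * Real.log x)) ≤
        (1 + 5 * e) * (y / Real.log x) := by
      rw [← mul_div_assoc, ← mul_div_assoc, div_le_div_iff₀ (mul_pos (by linarith) hlx) hlx]
      have h9 := mul_le_mul_of_nonneg_right (num1 e y he he2 hypos hye2) hlx.le
      linarith
    have h11 : (1 + 2 * e) * ((m : ℝ) / Real.log n) ≤
        (1 + 2 * e) * ((y + 2) / ((1 - e) * Real.log x)) := by gcongr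
    linarith
  have hlo : (1 - 5 * e) * (y / Real.log x) ≤ (cnt A U x y ω : ℝ) := by
    set n := ⌈x⌉₊ with hn
    have hn1 : x ≤ (n : ℝ) := Nat.le_ceil _
    have hn2 : (n : ℝ) < x + 1 := Nat.ceil_lt_add_one (by linarith)
    have hc1 : (⌊x + y⌋₊ : ℝ) ≤ x + y := Nat.floor_le hxy
    have hc2 : x + y < (⌊x + y⌋₊ : ℝ) + 1 := Nat.lt_floor_add_one _
    have hnc : n ≤ ⌊x + y⌋₊ := by
      have : (n : ℝ) ≤ (⌊x + y⌋₊ : ℝ) := by linarith
      exact_mod_cast this
    obtain ⟨m, hm⟩ := Nat.exists_eq_add_of_le hnc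
    have hmr : (⌊x + y⌋₊ : ℝ) = n + m := by rw [hm]; push_cast; ring
    have hnn : n₀ ≤ n := by
      have : (n₀ : ℝ) ≤ n := by linarith
      exact_mod_cast this
    have hn9 : (9 : ℝ) ≤ n := by linarith
    have hln0 : 0 < Real.log n := Real.log_pos (by linarith)
    have hln2 : Real.log n ≤ (1 + e) * Real.log x := by
      have h3 : Real.log n ≤ Real.log (2 * x) := Real.log_le_log (by linarith) (by linarith)
      rw [Real.log_mul (by norm_num) (by linarith)] at h3
      linarith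
    have hm1 : 32 / e ^ 2 * Real.log n ^ 2 ≤ m := by
      have h4 : 32 / e ^ 2 * Real.log n ^ 2 ≤ 32 / e ^ 2 * ((1 + e) * Real.log x) ^ 2 := by
        gcongr
      have h5 : 32 / e ^ 2 * ((1 + e) * Real.log x) ^ 2 =
          (1 + e) ^ 2 / 2 * (64 / e ^ 2 * Real.log x ^ 2) := by ring
      have h6 : (1 + e) ^ 2 / 2 * (64 / e ^ 2 * Real.log x ^ 2) ≤ (1 + e) ^ 2 / 2 * y := by
        gcongr
      have h7 : (1 + e) ^ 2 / 2 * y ≤ 6 / 10 * y := by
        apply mul_le_mul_of_nonneg_right _ hypos.le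
        have : (1 + e) ^ 2 ≤ (1 + 1 / 20) ^ 2 := by gcongr
        linarith
      rw [h5] at h4
      have h8 : 6 / 10 * y ≤ m := by linarith
      exact h4.trans (h6.trans (h7.trans h8))
    have hm2 : m ≤ n := by
      have : (m : ℝ) ≤ n := by linarith
      exact_mod_cast this
    have h5 := (abs_le.mp (hn₀ n hnn m hm1 hm2)).1
    have h6 := cnt_mono A U n m x y ω hg hn1 (by linarith)
    have h6' : (cnt A U n m ω : ℝ) ≤ cnt A U x y ω := by exact_mod_cast h6
    have h7 : (y - 2) / ((1 + e) * Real.log x) ≤ (m : ℝ) / Real.log n := by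
      have : 0 < (1 + e) * Real.log x := mul_pos (by linarith) hlx
      gcongr
      linarith
    have h8 : (1 - 5 * e) * (y / Real.log x) ≤
        (1 - 2 * e) * ((y - 2) / ((1 + e) * Real.log x)) := by
      rw [← mul_div_assoc, ← mul_div_assoc, div_le_div_iff₀ hlx (mul_pos (by linarith) hlx)]
      have h9 := mul_le_mul_of_nonneg_right (num2 e y he he2 hypos hye2) hlx.le
      linarith
    have h11 : (1 - 2 * e) * ((y - 2) / ((1 + e) * Real.log x)) ≤
        (1 - 2 * e) * ((m : ℝ) / Real.log n) := by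
      apply mul_le_mul_of_nonneg_left h7 (by linarith)
    linarith
  rw [abs_le]
  constructor <;> linarith

/-- from integers to real numbers -/
lemma reals2 (A : ℝ) (U : ℕ → Ω → ℝ) (ω : Ω) (hg : good U ω) (e : ℝ) (he : 0 < e)
    (he2 : e ≤ 1 / 20)
    (h : ∀ᶠ n : ℕ in atTop, ∀ m : ℕ, 32 / e ^ 2 * Real.log n ^ 2 ≤ m → m ≤ n →
      |(cnt A U n m ω : ℝ) - m / Real.log n| ≤ 2 * e * (m / Real.log n)) :
    ∀ᶠ x : ℝ in atTop, ∀ y : ℝ, 512 / e ^ 2 * Real.log x ^ 2 ≤ y → y ≤ x →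
      |(cnt A U x y ω : ℝ) - y / Real.log x| ≤ 6 * e * (y / Real.log x) := by
  obtain ⟨X₁, hX₁⟩ := eventually_atTop.mp (reals A U ω hg e he he2 h)
  have hL : Tendsto Real.log atTop atTop := Real.tendsto_log_atTop
  filter_upwards [eventually_ge_atTop X₁, eventually_ge_atTop (10 : ℝ),
    hL.eventually_ge_atTop (1 / e)] with x hx1 hx10 hx2 y hy1 hy2
  have hl : 20 ≤ Real.log x := by
    have : 20 ≤ 1 / e := by rw [le_div_iff₀ he]; linarith
    linarith
  have hel : 1 ≤ e * Real.log x := by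
    have := mul_le_mul_of_nonneg_left hx2 he.le
    rwa [mul_one_div_cancel he.ne'] at this
  have hlog2 : Real.log 2 ≤ 1 := by linarith [Real.log_two_lt_d9]
  have hlx : 0 < Real.log x := by linarith
  have hy0 : 0 < y := lt_of_lt_of_le (by positivity) hy1
  have hq : 0 < 1 / e ^ 2 * Real.log x ^ 2 := by positivity
  have hq1 : 512 / e ^ 2 * Real.log x ^ 2 = 512 * (1 / e ^ 2 * Real.log x ^ 2) := by ring
  have hq2 : 64 / e ^ 2 * Real.log x ^ 2 = 64 * (1 / e ^ 2 * Real.log x ^ 2) := by ring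
  have hM : 0 < y / Real.log x := by positivity
  by_cases hc : y ≤ x / 2
  · have := hX₁ x hx1 y (by linarith) hc
    refine this.trans ?_
    gcongr
    norm_num
  · have hc' : x / 2 < y := not_le.mp hc
    have ha := abs_le.mp (hX₁ x hx1 (y / 2) (by linarith) (by linarith))
    set x' := x + y / 2 with hx'
    have hxx : x ≤ x' := by linarith
    have hl1 : Real.log x ≤ Real.log x' := Real.log_le_log (by linarith) hxx
    have hl2 : Real.log x' ≤ Real.log x + Real.log 2 := by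
      have h3 : Real.log x' ≤ Real.log (2 * x) := Real.log_le_log (by linarith) (by linarith)
      rw [Real.log_mul (by norm_num) (by linarith)] at h3
      linarith
    have hl3 : Real.log x' ^ 2 ≤ (2 * Real.log x) ^ 2 := by
      gcongr
      · linarith
      · linarith
    have hb := abs_le.mp (hX₁ x' (by linarith) (y / 2) (by
      have h3 : 64 / e ^ 2 * Real.log x' ^ 2 ≤ 64 / e ^ 2 * (2 * Real.log x) ^ 2 := by gcongr
      have h4 : 64 / e ^ 2 * (2 * Real.log x) ^ 2 = 256 * (1 / e ^ 2 * Real.log x ^ 2) := by ring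
      linarith) (by linarith))
    have hadd := cnt_add A U x (y / 2) (y / 2) ω hg (by linarith) (by linarith)
    rw [add_halves] at hadd
    have hadd' : (cnt A U x y ω : ℝ) = cnt A U x (y / 2) ω + cnt A U x' (y / 2) ω := by
      rw [hadd]; push_cast; rfl
    have hM2 : y / 2 / Real.log x = y / Real.log x / 2 := by ring
    have hc1 : y / 2 / Real.log x' ≤ y / Real.log x / 2 := by
      rw [← hM2]
      gcongr
    have hc2 : (1 - e) * (y / Real.log x / 2) ≤ y / 2 / Real.log x' := by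
      rw [← hM2, ← mul_div_assoc, div_le_div_iff₀ hlx (by linarith)]
      have h3 : (1 - e) * Real.log x' ≤ Real.log x := by
        have h5 : e * Real.log x ≤ e * Real.log x' := mul_le_mul_of_nonneg_left hl1 he.le
        linarith
      have h6 := mul_le_mul_of_nonneg_left h3 (by linarith : 0 ≤ y / 2)
      linarith
    have hc0 : 0 < y / 2 / Real.log x' := by
      have : 0 < Real.log x' := by linarith
      positivity
    rw [hM2] at ha
    rw [hadd', abs_le]
    have hc3 : 5 * e * (y / 2 / Real.log x') ≤ 5 * e * (y / Real.log x / 2) := by gcongr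
    have hc4 : 0 < e * (y / Real.log x) := mul_pos he hM
    constructor
    · linarith [ha.1, hb.1]
    · linarith [ha.2, hb.2]

theorem t_UNI (h1 : S_MEAN) (h2 : S_LAW) : S_UNI := by
  intro Ω _ P A U hU hA ε hε
  set e : ℝ := min (1 / 20) (ε / 6) with he
  have he0 : 0 < e := lt_min (by norm_num) (by linarith)
  have he1 : e ≤ 1 / 20 := min_le_left _ _
  have he2 : 6 * e ≤ ε := by
    have := min_le_right (1 / 20 : ℝ) (ε / 6)
    linarith
  refine ⟨512 / e ^ 2, by positivity, ?_⟩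
  have hgood := (h2 Ω P A U hU hA).2.2.1
  filter_upwards [integers P h1 h2 A hA U hU e he0 (by linarith), hgood] with ω hω hg
  filter_upwards [reals2 A U ω hg e he0 he1 hω, eventually_ge_atTop (10 : ℝ)]
    with x hx hx10 y hy1 hy2
  have h3 := hx y hy1 hy2
  have hlx : 0 < Real.log x := Real.log_pos (by linarith)
  have hy0 : 0 < y := lt_of_lt_of_le (by positivity) hy1
  have h4 : (cnt A U x y ω : ℝ) * Real.log x / y - 1 =
      ((cnt A U x y ω : ℝ) - y / Real.log x) * (Real.log x / y) := by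
    field_simp
  rw [h4, abs_mul, abs_of_pos (by positivity : 0 < Real.log x / y)]
  have h5 : 6 * e * (y / Real.log x) * (Real.log x / y) = 6 * e := by
    field_simp
  calc |(cnt A U x y ω : ℝ) - y / Real.log x| * (Real.log x / y) ≤
      6 * e * (y / Real.log x) * (Real.log x / y) := by gcongr
    _ = 6 * e := h5
    _ ≤ ε := he2

end Pool.Agent.U56.DP
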